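import Mathlib
import Pool.Agent.Work.MP_994356_lc.CS
import Pool.Agent.Work.MP_994356_lc.Final
import Pool.Agent.Work.MP_994356_lc.Analytic
import Pool.Agent.Work.MP_994356_lc.Strong

/-!
# Goldstern's principle for C-sets

`CSet` (`Pool.Agent.Work.MP_994356_lc.CS`): the smallest family of subsets of a measurable space that
contains the measurable sets and is closed under complements and the Souslin operation.

For every probability space `(Y, μ)` and every C-set `A ⊆ ω^ω × Y` (product sigma-algebra) that is
monotone in `x`: the union of the sections is measurable (for the completion of `μ`) and is uniformized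
almost everywhere by a measurable function; for every `ε > 0` a single section covers the union up to
measure `ε`; and if all the sections are null then the union is null. Analytic and coanalytic sets in
Polish spaces are C-sets.

Proof. Measurable families of Laver trees: the sets that are decided, below every family and at every
node, by a subfamily and a measurable subset of `Y` form a sigma-algebra (fusion and essential
suprema), contain the measurable sets and are closed under the Souslin operation. Monotone sets are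
then handled by the leftmost branch, which is a measurable function.
-/

set_option autoImplicit false

open MeasureTheory Set
open Pool.Agent.Work.MP_994356_lc

namespace Pool.Agent.Results.MP_994356_lc.GoldsternCSets

universe u

theorem result :
    (∀ (Y : Type u) [MeasurableSpace Y] (μ : Measure Y) [IsProbabilityMeasure μ]
      (A : Set ((ℕ → ℕ) × Y)), CSet A →
      (∀ x x' : ℕ → ℕ, x ≤ x' → ∀ y, (x, y) ∈ A → (x', y) ∈ A) →
      NullMeasurableSet {y | ∃ x, (x, y) ∈ A} μ ∧
      (∃ φ : Y → (ℕ → ℕ), Measurable φ ∧ ∀ᵐ y ∂μ, (∃ x, (x, y) ∈ A) → (φ y, y) ∈ A) ∧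
      (∀ ε : ENNReal, 0 < ε → ∃ x, μ {y | (∃ x', (x', y) ∈ A) ∧ (x, y) ∉ A} ≤ ε) ∧
      ((∀ x, μ {y | (x, y) ∈ A} = 0) → μ {y | ∃ x, (x, y) ∈ A} = 0)) ∧
    (∀ (X : Type u) [TopologicalSpace X] [PolishSpace X] [MeasurableSpace X] [BorelSpace X]
      (s : Set X), AnalyticSet s ∨ AnalyticSet sᶜ → CSet s) := by
  refine ⟨fun Y _ μ _ A hA hm => ?_, fun X _ _ _ _ s hs => ?_⟩
  · obtain ⟨h1, h2⟩ := unif μ hA hm
    have h3 : ∀ ε : ENNReal, 0 < ε → ∃ x, μ {y | (∃ x', (x', y) ∈ A) ∧ (x, y) ∉ A} ≤ ε :=
      fun ε hε => gold μ hA hm hε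
    refine ⟨h1, h2, h3, fun h0 => ?_⟩
    refine le_antisymm (ENNReal.le_of_forall_pos_le_add fun ε hε _ => ?_) bot_le
    obtain ⟨x, hx⟩ := h3 ε (by exact_mod_cast hε)
    have hsub : {y | ∃ x, (x, y) ∈ A} ⊆
        {y | (∃ x', (x', y) ∈ A) ∧ (x, y) ∉ A} ∪ {y | (x, y) ∈ A} := by
      intro y hy
      by_cases hxy : (x, y) ∈ A
      · exact Or.inr hxy
      · exact Or.inl ⟨hy, hxy⟩
    calc μ {y | ∃ x, (x, y) ∈ A}
        ≤ μ ({y | (∃ x', (x', y) ∈ A) ∧ (x, y) ∉ A} ∪ {y | (x, y) ∈ A}) := measure_mono hsub
      _ ≤ μ {y | (∃ x', (x', y) ∈ A) ∧ (x, y) ∉ A} + μ {y | (x, y) ∈ A} := measure_union_le _ _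
      _ ≤ ε + 0 := add_le_add hx (h0 x).le
      _ = 0 + ε := by rw [add_comm]
  · let _ := TopologicalSpace.upgradeIsCompletelyMetrizable X
    rcases hs with hs | hs
    · exact cset_of_analytic hs
    · have := CSet.compl _ (cset_of_analytic hs)
      rwa [compl_compl] at this

end Pool.Agent.Results.MP_994356_lc.GoldsternCSets
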